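import Pool.Agent.K3h5.FF.Stm

/-!
# Total weights of the Ewens distribution under prescribed values (brick EW, helper10)
-/

set_option autoImplicit false

namespace Pool.Agent.K3h10.FF

open Pool.Agent.K3h5.FF

open Equiv.Perm

/-- number of cycles through the cycle type -/
lemma cyc_eq {n : ℕ} (π : Equiv.Perm (Fin n)) :
    cyc π = Multiset.card π.cycleType + (n - π.cycleType.sum) := by
  unfold cyc
  rw [Equiv.Perm.parts_partition, Multiset.card_add, Multiset.card_replicate, Fintype.card_fin,
    Equiv.Perm.sum_cycleType]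

lemma sum_le {n : ℕ} (π : Equiv.Perm (Fin n)) : π.cycleType.sum ≤ n := by
  rw [Equiv.Perm.sum_cycleType]
  exact (Finset.card_le_univ _).trans (by simp)

/-- the total weight -/
noncomputable def W (θ : ℝ) (n : ℕ) : ℝ := ∑ σ : Equiv.Perm (Fin n), θ ^ cyc σ

/-- the weight of the permutations with prescribed values -/
noncomputable def A (θ : ℝ) {n l : ℕ} (p a : Fin l → Fin n) : ℝ :=
  pr (fun σ : Equiv.Perm (Fin n) => θ ^ cyc σ) {π | ∀ i, π (p i) = a i}

lemma ext_eq {n m : ℕ} {p : Fin n → Prop} [DecidablePred p] (f : Fin m ≃ Subtype p)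
    (g : Equiv.Perm (Fin m)) :
    ((Equiv.Perm.subtypeEquivSubtypePerm p (f.permCongr g) :
      {f : Equiv.Perm (Fin n) // ∀ a, ¬p a → f a = a}) : Equiv.Perm (Fin n)) =
        g.extendDomain f := by
  ext x
  rw [Equiv.Perm.subtypeEquivSubtypePerm_apply_coe]
  by_cases hx : p x
  · rw [ofSubtype_apply_of_mem _ hx, extendDomain_apply_subtype _ _ hx]
    simp [Equiv.permCongr_apply]
  · rw [ofSubtype_apply_of_not_mem _ hx, extendDomain_apply_not_subtype _ _ hx]

lemma cyc_ext {n m : ℕ} {p : Fin n → Prop} [DecidablePred p] (f : Fin m ≃ Subtype p)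
    (hmn : m ≤ n) (g : Equiv.Perm (Fin m)) : cyc (g.extendDomain f) = cyc g + (n - m) := by
  rw [cyc_eq, cyc_eq, cycleType_extendDomain]
  have := sum_le g
  omega

open Classical in
/-- permutations fixing all points outside `p` -/
lemma fix_sum (θ : ℝ) {n m : ℕ} (p : Fin n → Prop) (f : Fin m ≃ Subtype p) (hmn : m ≤ n) :
    pr (fun σ : Equiv.Perm (Fin n) => θ ^ cyc σ) {π | ∀ x, ¬ p x → π x = x} =
      θ ^ (n - m) * W θ m := by
  unfold W
  have h0 : pr (fun σ : Equiv.Perm (Fin n) => θ ^ cyc σ) {π | ∀ x, ¬ p x → π x = x} =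
      ∑ π ∈ (Finset.univ.filter fun π : Equiv.Perm (Fin n) =>
      π ∈ {π : Equiv.Perm (Fin n) | ∀ x, ¬ p x → π x = x}), θ ^ cyc π := by
    unfold pr
    rw [Finset.sum_filter]
    refine Finset.sum_congr rfl fun π _ => ?_
    by_cases h : π ∈ {π : Equiv.Perm (Fin n) | ∀ x, ¬ p x → π x = x}
    · rw [if_pos h, if_pos h]
    · rw [if_neg h, if_neg h]
  rw [Finset.mul_sum, h0]
  have h1 : ∑ π ∈ (Finset.univ.filter fun π : Equiv.Perm (Fin n) =>
      π ∈ {π : Equiv.Perm (Fin n) | ∀ x, ¬ p x → π x = x}), θ ^ cyc π =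
      ∑ π : {π : Equiv.Perm (Fin n) // ∀ x, ¬ p x → π x = x}, θ ^ cyc (π : Equiv.Perm (Fin n)) := by
    refine Finset.sum_subtype _ (fun x => ?_) _
    simp
  rw [h1]
  symm
  refine Fintype.sum_equiv (f.permCongr.trans (Equiv.Perm.subtypeEquivSubtypePerm p)) _ _ (fun g => ?_)
  rw [Equiv.trans_apply, ext_eq, cyc_ext f hmn, pow_add, mul_comm]

/-- all the prescribed points are fixed points -/
lemma A_fix (θ : ℝ) {n l : ℕ} (p : Fin l → Fin n) (hp : Function.Injective p) :
    A θ p p = θ ^ l * W θ (n - l) := by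
  classical
  have hln : l ≤ n := by simpa using Fintype.card_le_of_injective p hp
  let q : Fin n → Prop := fun x => x ∉ Set.range p
  have hcard : Fintype.card (Subtype q) = n - l := by
    have h1 : Fintype.card (Subtype q) = Fintype.card (Fin n) - Fintype.card {x // x ∈ Set.range p} :=
      Fintype.card_subtype_compl _
    have h2 : Fintype.card {x // x ∈ Set.range p} = l := by
      have := Set.card_range_of_injective hp
      rw [Fintype.card_fin] at this
      refine Eq.trans ?_ this
      exact Fintype.card_congr (Equiv.refl _)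
    rw [h1, h2, Fintype.card_fin]
  have f : Fin (n - l) ≃ Subtype q := (Fintype.equivFinOfCardEq hcard).symm
  have h := fix_sum θ q f (Nat.sub_le n l)
  have h3 : n - (n - l) = l := by omega
  rw [h3] at h
  rw [← h]
  unfold A
  congr 1
  ext π
  simp only [Set.mem_ofPred_eq, q, not_not, Set.mem_range]
  constructor
  · rintro h x ⟨i, rfl⟩; exact h i
  · intro h i; exact h _ ⟨i, rfl⟩

/-- one index with a value different from the position -/
lemma A_step (hC : S_CYC) (θ : ℝ) {n l : ℕ} (p a : Fin l → Fin n)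
    (ha : Function.Injective a) (hpa : ∀ i i', p i = a i' → i = i') (i₀ : Fin l)
    (hi : p i₀ ≠ a i₀) : A θ p (Function.update a i₀ (p i₀)) = θ * A θ p a := by
  classical
  unfold A pr
  rw [Finset.mul_sum]
  symm
  refine Fintype.sum_equiv (Equiv.mulLeft (Equiv.swap (p i₀) (a i₀))) _ _ (fun π => ?_)
  have hiff : (π ∈ {π : Equiv.Perm (Fin n) | ∀ i, π (p i) = a i}) ↔
      ((Equiv.mulLeft (Equiv.swap (p i₀) (a i₀))) π ∈
        {π : Equiv.Perm (Fin n) | ∀ i, π (p i) = Function.update a i₀ (p i₀) i}) := by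
    simp only [Set.mem_ofPred_eq, Equiv.coe_mulLeft, Equiv.Perm.mul_apply]
    refine forall_congr' fun i => ?_
    by_cases h : i = i₀
    · subst h
      rw [Function.update_self, Equiv.swap_apply_eq_iff, Equiv.swap_apply_left]
    · rw [Function.update_of_ne h, Equiv.swap_apply_eq_iff, Equiv.swap_apply_of_ne_of_ne]
      · intro h2; exact h (hpa _ _ h2.symm).symm
      · intro h2; exact h (ha h2)
  by_cases hπ : π ∈ {π : Equiv.Perm (Fin n) | ∀ i, π (p i) = a i}
  · rw [if_pos hπ, if_pos (hiff.1 hπ)]
    show θ * θ ^ cyc π = θ ^ cyc (Equiv.swap (p i₀) (a i₀) * π)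
    rw [(hC n π).1 (p i₀) (a i₀) (hπ i₀) (Ne.symm hi), pow_succ, mul_comm]
  · rw [if_neg hπ, if_neg (fun h => hπ (hiff.2 h)), mul_zero]

lemma A_ne (hC : S_CYC) (θ : ℝ) {n l : ℕ} (p : Fin l → Fin n) (hp : Function.Injective p)
    (k : ℕ) : ∀ (a : Fin l → Fin n), Function.Injective a → (∀ i i', p i = a i' → i = i') →
      (Finset.univ.filter fun i => p i ≠ a i).card = k → θ ^ k * A θ p a = A θ p p := by
  classical
  induction k with
  | zero =>
    intro a _ _ hk
    have : a = p := by
      funext i
      by_contra h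
      have h2 : i ∈ (Finset.univ.filter fun i => p i ≠ a i) := by
        simp only [Finset.mem_filter, Finset.mem_univ, true_and]; exact fun h3 => h h3.symm
      rw [Finset.card_eq_zero] at hk
      rw [hk] at h2
      simp at h2
    rw [this, pow_zero, one_mul]
  | succ k ih =>
    intro a ha hpa hk
    obtain ⟨i₀, hi₀⟩ : ∃ i₀, i₀ ∈ (Finset.univ.filter fun i => p i ≠ a i) := by
      have : 0 < (Finset.univ.filter fun i => p i ≠ a i).card := by omega
      exact Finset.card_pos.1 this
    have hne : p i₀ ≠ a i₀ := by simpa using hi₀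
    have h1 := ih (Function.update a i₀ (p i₀)) ?_ ?_ ?_
    · rw [A_step hC θ p a ha hpa i₀ hne] at h1
      rw [← h1, pow_succ]; ring
    · intro i j hij
      by_cases h : i = i₀
      · by_cases h' : j = i₀
        · rw [h, h']
        · rw [h, Function.update_self, Function.update_of_ne h'] at hij
          exact absurd (hpa _ _ hij).symm h'
      · by_cases h' : j = i₀
        · rw [h', Function.update_self, Function.update_of_ne h] at hij
          exact absurd (hpa _ _ hij.symm).symm h
        · rw [Function.update_of_ne h, Function.update_of_ne h'] at hij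
          exact ha hij
    · intro i j hij
      by_cases h : j = i₀
      · rw [h, Function.update_self] at hij
        rw [h]; exact hp hij
      · rw [Function.update_of_ne h] at hij
        exact hpa _ _ hij
    · have h2 : (Finset.univ.filter fun i => p i ≠ Function.update a i₀ (p i₀) i) =
          (Finset.univ.filter fun i => p i ≠ a i).erase i₀ := by
        ext i
        simp only [Finset.mem_filter, Finset.mem_univ, true_and, Finset.mem_erase]
        by_cases h : i = i₀
        · subst h; simp
        · rw [Function.update_of_ne h]; simp [h]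
      rw [h2, Finset.card_erase_of_mem hi₀, hk]
      rfl

lemma A_eq (hC : S_CYC) (θ : ℝ) (hθ : 0 < θ) {n l : ℕ} (p a : Fin l → Fin n)
    (hp : Function.Injective p) (ha : Function.Injective a)
    (hpa : ∀ i i', p i = a i' → i = i') :
    A θ p a = θ ^ ((Finset.univ.filter fun i => p i = a i).card) * W θ (n - l) := by
  classical
  have h1 := A_ne hC θ p hp _ a ha hpa rfl
  rw [A_fix θ p hp] at h1
  have h2 : (Finset.univ.filter fun i => p i = a i).card +
      (Finset.univ.filter fun i => p i ≠ a i).card = l := by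
    have := Finset.card_filter_add_card_filter_not (s := (Finset.univ : Finset (Fin l)))
      (fun i => p i = a i)
    simpa using this
  have h3 : θ ^ (Finset.univ.filter fun i => p i ≠ a i).card ≠ 0 := pow_ne_zero _ hθ.ne'
  apply mul_left_cancel₀ h3
  rw [h1]
  have h4 : θ ^ l = θ ^ (Finset.univ.filter fun i => p i = a i).card *
      θ ^ (Finset.univ.filter fun i => p i ≠ a i).card := by
    rw [← pow_add, h2]
  rw [h4]
  ring

lemma W_zero (θ : ℝ) : W θ 0 = 1 := by
  unfold W
  have h : ∀ σ : Equiv.Perm (Fin 0), θ ^ cyc σ = 1 := by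
    intro σ
    have : σ = 1 := Subsingleton.elim _ _
    rw [this, cyc_eq]
    simp
  rw [Finset.sum_congr rfl (fun σ _ => h σ)]
  simp

lemma W_succ (hC : S_CYC) (θ : ℝ) (hθ : 0 < θ) (n : ℕ) : W θ (n + 1) = (θ + n) * W θ n := by
  classical
  have h1 : W θ (n + 1) = ∑ a : Fin (n + 1), A θ (fun _ : Fin 1 => Fin.last n) (fun _ => a) := by
    unfold W A pr
    rw [Finset.sum_comm]
    refine Finset.sum_congr rfl fun π _ => ?_
    have : ∀ a : Fin (n + 1), (π ∈ {π : Equiv.Perm (Fin (n + 1)) |
        ∀ i : Fin 1, π ((fun _ : Fin 1 => Fin.last n) i) = (fun _ => a) i}) ↔ a = π (Fin.last n) := by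
      intro a
      simp only [Set.mem_ofPred_eq, forall_const]
      exact eq_comm
    simp only [this]
    simp
  have h2 : ∀ a : Fin (n + 1), A θ (fun _ : Fin 1 => Fin.last n) (fun _ => a) =
      (if a = Fin.last n then θ else 1) * W θ n := by
    intro a
    have h := A_eq hC θ hθ (fun _ : Fin 1 => Fin.last n) (fun _ => a)
      (fun i j _ => Subsingleton.elim i j) (fun i j _ => Subsingleton.elim i j)
      (fun i j _ => Subsingleton.elim i j)
    rw [h]
    congr 1
    by_cases ha : a = Fin.last n
    · subst ha; simp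
    · have : ¬ (Fin.last n = a) := fun h => ha h.symm
      simp [ha, this]
  rw [h1, Finset.sum_congr rfl (fun a _ => h2 a), ← Finset.sum_mul]
  congr 1
  rw [Fin.sum_univ_castSucc]
  have : ∀ i : Fin n, (if (Fin.castSucc i) = Fin.last n then θ else 1) = 1 := by
    intro i
    rw [if_neg (Fin.castSucc_lt_last i).ne]
  simp only [this]
  simp
  ring

lemma W_eq (hC : S_CYC) (θ : ℝ) (hθ : 0 < θ) (n : ℕ) :
    W θ n = ∏ i ∈ Finset.range n, (θ + i) := by
  induction n with
  | zero => rw [W_zero]; simp
  | succ n ih => rw [W_succ hC θ hθ, ih, Finset.prod_range_succ, mul_comm]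

theorem t_EW : S_CYC → S_EW := by
  intro hC θ hθ n
  refine ⟨W_eq hC θ hθ n, ?_⟩
  intro l p a hp ha hpa
  have h := A_eq hC θ hθ p a hp ha hpa
  rw [W_eq hC θ hθ] at h
  unfold A at h
  convert h using 3

end Pool.Agent.K3h10.FF
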